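import Mathlib
import Pool.Agent.H.MP_be768e_al.D

set_option autoImplicit false

namespace Pool.Agent.Results.MP_2928c2_al.No

/-- The largest length of a weakly increasing subsequence of `w` with all letters in `[p, q]`. -/
noncomputable def ell {n : ℕ} (w : FreeMonoid (Fin n)) (p q : Fin n) : ℕ :=
  sSup {k | ∃ s : List (Fin n), s.Sublist w.toList ∧ s.Pairwise (· ≤ ·) ∧
    (∀ x ∈ s, p ≤ x ∧ x ≤ q) ∧ s.length = k}

/-- The grammic congruence. -/
def Gram {n : ℕ} (u v : FreeMonoid (Fin n)) : Prop :=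
  ∀ p q : Fin n, p ≤ q → ell u p q = ell v p q

/-- The semigroup `S` satisfies the identity `u = v` between non-empty words. -/
def Holds (S : Type) [Semigroup S] (u v : FreeSemigroup ℕ) : Prop :=
  ∀ f : FreeSemigroup ℕ →ₙ* S, f u = f v

/-- `T` lies in the variety generated by `S`. -/
def InVar (S T : Type) [Semigroup S] [Semigroup T] : Prop :=
  ∀ u v, Holds S u v → Holds T u v

/-- `T` lies in the join of `var S` and `Com`: in every variety (class of models of a set `E` of
identities) that contains `var S` and all commutative semigroups. -/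
def InJoinCom (S T : Type) [Semigroup S] [Semigroup T] : Prop :=
  ∀ E : Set (FreeSemigroup ℕ × FreeSemigroup ℕ),
    (∀ (U : Type) [Semigroup U], InVar S U → ∀ e ∈ E, Holds U e.1 e.2) →
    (∀ (C : Type) [CommSemigroup C], ∀ e ∈ E, Holds C e.1 e.2) → ∀ e ∈ E, Holds T e.1 e.2

open Pool.Agent.H.MP_be768e_al List in
theorem result (n : ℕ) (hn : 2 ≤ n) :
    ∃ c : Con (FreeMonoid (Fin n)), (∀ u v, c u v ↔ Gram u v) ∧
      ∀ (F : Type) [Monoid F] [Finite F],
        (¬ ∀ (T : Type) [Semigroup T], InVar c.Quotient T ↔ InVar F T) ∧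
        (¬ ∀ (T : Type) [Semigroup T], InVar c.Quotient T ↔ InJoinCom F T) := by
  refine ⟨gcon Fin.val, fun u v => ?_, fun F _ _ => ?_⟩
  · change Le _ _ ∧ Le _ _ ↔ _
    rw [Le_map, Le_map]
    constructor
    · rintro ⟨h, g⟩ p q hpq
      exact congrArg sSup (Set.ext fun k => ⟨h p q hpq k, g p q hpq k⟩)
    · intro h
      refine ⟨fun p q hpq k => ?_, fun p q hpq k => ?_⟩ <;> rw [Inc_iff, Inc_iff]
      · exact fun g => g.trans (h p q hpq).le
      · exact fun g => g.trans (h p q hpq).ge
  obtain ⟨a, b, hab, e⟩ : ∃ a b : ℕ, a < b ∧ (fun x : F => x ^ a) = fun x => x ^ b := by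
    obtain ⟨a, b, h, e⟩ := Finite.exists_ne_map_eq_of_infinite fun (k : ℕ) (x : F) => x ^ k
    rcases lt_or_gt_of_ne h with h | h
    · exact ⟨a, b, h, e⟩
    · exact ⟨b, a, h, e.symm⟩
  let P : ℕ → FreeSemigroup ℕ := fun k => Nat.rec (.of 0) (fun _ w => w * .of 0) k
  have hP : ∀ (M : Type) [Monoid M] (f : FreeSemigroup ℕ →ₙ* M) (k : ℕ),
      f (P k) = f (.of 0) ^ (k + 1) := by
    intro M _ f k
    induction k with
    | zero => simp [P]
    | succ k ih => rw [pow_succ, ← ih, ← map_mul]
  have h1 : Holds F (P b * .of 1 * P a) (P a * .of 1 * P b) := fun f => by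
    have := congrFun e (f (.of 0))
    simp only [map_mul, hP, pow_succ, this]
  have h2 : ∀ (C : Type) [CommSemigroup C], Holds C (P b * .of 1 * P a) (P a * .of 1 * P b) :=
    fun C _ f => by
      simp only [map_mul]
      rw [mul_comm, mul_comm (f (P b)), mul_assoc]
  have h3 : ¬ Holds (gcon (Fin.val : Fin n → ℕ)).Quotient (P b * .of 1 * P a)
      (P a * .of 1 * P b) := fun h => by
    let x : FreeMonoid (Fin n) := .of ⟨0, by omega⟩
    let y : FreeMonoid (Fin n) := .of ⟨1, by omega⟩
    have := h (FreeSemigroup.lift fun i => (gcon Fin.val).mk' (if i = 0 then x else y ^ (a + 2)))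
    simp only [map_mul, hP, FreeSemigroup.lift_of, if_true, one_ne_zero, if_false] at this
    simp only [← map_pow, ← map_mul] at this
    have k := ((gcon Fin.val).eq.1 this).1
    have pw : ∀ (i : Fin n) (k : ℕ), (FreeMonoid.of i ^ k).toList = replicate k i := by
      intro i k
      induction k with
      | zero => rfl
      | succ k ih => rw [pow_succ', FreeMonoid.toList_mul, ih]; rfl
    simp only [x, y, FreeMonoid.toList_mul, pw, map_append, map_replicate] at k
    obtain ⟨s, a1, a2, -, a4⟩ := k 0 1 _ ⟨_, sublist_append_left _ _,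
      by simp [pairwise_append, mem_replicate], by simp [mem_replicate], rfl⟩
    obtain ⟨t, s3, rfl, a5, b3⟩ := sublist_append_iff.1 a1
    obtain ⟨s1, s2, rfl, b1, b2⟩ := sublist_append_iff.1 a5
    obtain ⟨i, hi, rfl⟩ := sublist_replicate_iff.1 b1
    obtain ⟨j, hj, rfl⟩ := sublist_replicate_iff.1 b2
    obtain ⟨l, hl, rfl⟩ := sublist_replicate_iff.1 b3
    simp [pairwise_append, mem_replicate] at a2 a4
    omega
  refine ⟨fun h => h3 ((h _).1 (fun _ _ k => k) _ _ h1), fun h => h3 ?_⟩
  exact (h _).1 (fun _ _ k => k) {(P b * .of 1 * P a, P a * .of 1 * P b)}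
    (by rintro U _ k _ rfl; exact k _ _ h1) (by rintro C _ _ rfl; exact h2 C) _ rfl

end Pool.Agent.Results.MP_2928c2_al.No
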